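import Pool.Agent.W2helper76.NW.Num

/-!
# LEred: change to frame coordinates near the optimum, dodecahedron
-/

set_option autoImplicit false

namespace Pool.Agent.W2helper76.NW

open Matrix
open scoped goldenRatio
open Pool.Agent.W2helper59.NW

lemma div_phi (s : ℝ) : s / φ = s * (φ - 1) := by
  have h := Real.goldenRatio_sq
  have hp := Real.goldenRatio_pos
  rw [div_eq_iff hp.ne']
  linear_combination (-s) * h

/-- the vertices of `VE` in coordinates -/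
lemma VE_cases {v : Fin 3 → ℝ} (hv : v ∈ VE) : ∃ r s t : ℝ, (r = 1 ∨ r = -1) ∧ (s = 1 ∨ s = -1) ∧
    (t = 1 ∨ t = -1) ∧ ((v 0 = s ∧ v 1 = r ∧ v 2 = t) ∨
      (v 0 = s * (φ - 1) ∧ v 1 = 0 ∧ v 2 = t * φ) ∨
      (v 0 = t * φ ∧ v 1 = s * (φ - 1) ∧ v 2 = 0) ∨
      (v 0 = 0 ∧ v 1 = t * φ ∧ v 2 = s * (φ - 1))) := by
  obtain ⟨r, s, t, hr, hs, ht, h⟩ := hv
  refine ⟨r, s, t, hr, hs, ht, ?_⟩
  simp only [div_phi] at h
  rcases h with h | h | h | h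
  · left
    have h0 := congrFun h 0
    have h1 := congrFun h 1
    have h2 := congrFun h 2
    simp at h0 h1 h2
    exact ⟨h1, h0, h2⟩
  · right; left
    have h0 := congrFun h 0
    have h1 := congrFun h 1
    have h2 := congrFun h 2
    simp at h0 h1 h2
    exact ⟨h1, h0, h2⟩
  · right; right; left
    have h0 := congrFun h 0
    have h1 := congrFun h 1
    have h2 := congrFun h 2
    simp at h0 h1 h2
    exact ⟨h1, h0, h2⟩
  · right; right; right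
    have h0 := congrFun h 0
    have h1 := congrFun h 1
    have h2 := congrFun h 2
    simp at h0 h1 h2
    exact ⟨h1, h0, h2⟩

lemma memE1 {a b c : ℝ} (ha : a = 1 ∨ a = -1) (hb : b = 1 ∨ b = -1) (hc : c = 1 ∨ c = -1) :
    ![a, b, c] ∈ VE := by
  refine ⟨b, a, c, hb, ha, hc, Or.inl ?_⟩
  simp

lemma memE2 {b : ℝ} (hb : b = 1 ∨ b = -1) :
    ![φ, b * (φ - 1), 0] ∈ VE := by
  refine ⟨1, b, 1, by simp, hb, by simp, Or.inr (Or.inr (Or.inl ?_))⟩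
  simp [div_phi]

lemma maxE (h0 : PF0) {s t : ℝ} (hs : |s| ≤ 1/10^5) (ht : |t - 375320697/10^9| ≤ 1/10^5) :
    (∀ v ∈ VE, v 0 * ((2 - φ) - (-1) * t) + v 1 * ((-1) * s - (1 - φ))
        + v 2 * ((1 - φ) * t - (2 - φ) * s) ≤
      φ * ((2 - φ) - (-1) * t) + (φ - 1) * ((-1) * s - (1 - φ))
        + 0 * ((1 - φ) * t - (2 - φ) * s)) ∧
    0 < φ * ((2 - φ) - (-1) * t) + (φ - 1) * ((-1) * s - (1 - φ))
        + 0 * ((1 - φ) * t - (2 - φ) * s) ∧
    (∀ v ∈ VE, v 0 * ((2 - φ) - (-1) * t) + v 1 * ((-1) * s - (φ - 1))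
        + v 2 * ((φ - 1) * t - (2 - φ) * s) ≤
      φ * ((2 - φ) - (-1) * t) + (-1 * (φ - 1)) * ((-1) * s - (φ - 1))
        + 0 * ((φ - 1) * t - (2 - φ) * s)) ∧
    0 < φ * ((2 - φ) - (-1) * t) + (-1 * (φ - 1)) * ((-1) * s - (φ - 1))
        + 0 * ((φ - 1) * t - (2 - φ) * s) := by
  have hφ := phi_bd h0
  have e1 : φ * φ = φ + 1 := by have := Real.goldenRatio_sq; nlinarith
  have e2 : φ * φ * s = φ * s + s := by rw [e1]; ring
  have e3 : φ * φ * t = φ * t + t := by rw [e1]; ring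
  have hs' := abs_le.1 hs
  have ht' := abs_le.1 ht
  have s1 : |s| ≤ 1 := by
    norm_num at hs'; rw [abs_le]; constructor <;> linarith [hs'.1, hs'.2]
  have t1 : |t| ≤ 1 := by
    norm_num at ht'; rw [abs_le]; constructor <;> linarith [ht'.1, ht'.2]
  have fs := abs_le.1 (small hφ s1)
  have ft := abs_le.1 (small hφ t1)
  have hφ' := abs_le.1 hφ
  norm_num at hs' ht' fs ft hφ'
  obtain ⟨hs1, hs2⟩ := hs'
  obtain ⟨ht1, ht2⟩ := ht'
  obtain ⟨fs1, fs2⟩ := fs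
  obtain ⟨ft1, ft2⟩ := ft
  obtain ⟨p1, p2⟩ := hφ'
  clear hφ hs ht s1 t1 h0
  refine ⟨?_, ?_, ?_, ?_⟩
  · intro v hv
    obtain ⟨r', s', t', hr', hs', ht', h⟩ := VE_cases hv
    rcases hr' with rfl | rfl <;> rcases hs' with rfl | rfl <;> rcases ht' with rfl | rfl <;>
      rcases h with ⟨u0, u1, u2⟩ | ⟨u0, u1, u2⟩ | ⟨u0, u1, u2⟩ | ⟨u0, u1, u2⟩ <;>
      rw [u0, u1, u2] <;> linarith
  · linarith
  · intro v hv
    obtain ⟨r', s', t', hr', hs', ht', h⟩ := VE_cases hv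
    rcases hr' with rfl | rfl <;> rcases hs' with rfl | rfl <;> rcases ht' with rfl | rfl <;>
      rcases h with ⟨u0, u1, u2⟩ | ⟨u0, u1, u2⟩ | ⟨u0, u1, u2⟩ | ⟨u0, u1, u2⟩ <;>
      rw [u0, u1, u2] <;> linarith
  · linarith

lemma xiE {p q t : ℝ} (np : |p - 9362304294341269 / 10 ^ 16| ≤ 1 / 10 ^ 14)
    (nq : |q - 3513866574040487 / 10 ^ 16| ≤ 1 / 10 ^ 14)
    (ht : |t - 375320697/10^9| ≤ 1/10^5) :
    1 < q * t + p ∧ |p * t - q| ≤ 2 / 10 ^ 5 := by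
  have np := abs_le.1 np
  have nq := abs_le.1 nq
  have ht' := abs_le.1 ht
  norm_num at np nq ht'
  obtain ⟨np1, np2⟩ := np
  obtain ⟨nq1, nq2⟩ := nq
  obtain ⟨ht1, ht2⟩ := ht'
  have st : |t| ≤ 1 := by rw [abs_le]; constructor <;> linarith
  have ep : |p - 93623042943 / 10 ^ 11| ≤ 1 / 10 ^ 10 := by
    norm_num; rw [abs_le]; constructor <;> linarith
  have eq : |q - 35138665740 / 10 ^ 11| ≤ 1 / 10 ^ 10 := by
    norm_num; rw [abs_le]; constructor <;> linarith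
  have pt := abs_le.1 (small ep st)
  have qt := abs_le.1 (small eq st)
  norm_num at pt qt
  obtain ⟨pt1, pt2⟩ := pt
  obtain ⟨qt1, qt2⟩ := qt
  refine ⟨by linarith, ?_⟩
  norm_num; rw [abs_le]; constructor <;> linarith

lemma rE {c1 c2 c3 c4 x y z : ℝ}
    (k1 : |c1 - 3804155062544 / 10 ^ 12| ≤ 1 / 10 ^ 10)
    (k2 : |c2 - 509750763500 / 10 ^ 12| ≤ 1 / 10 ^ 10)
    (k3 : |c3 - 690377194446 / 10 ^ 12| ≤ 1 / 10 ^ 10)
    (k4 : |c4 - 92509452477 / 10 ^ 12| ≤ 1 / 10 ^ 10)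
    (hx : |x + 181479772/10^9| ≤ 1/10^5) (hy : |y + 133998419/10^9| ≤ 1/10^5)
    (hz : |z - 24318003/10^9| ≤ 1/10^5) :
    399 / 100 < c1 - c3 * x - c2 * y + c4 * z ∧
    |c1 * x + c3 - c2 * z - c4 * y| ≤ 6 / 10 ^ 5 ∧
    |c1 * y - c3 * z + c2 - c4 * x| ≤ 6 / 10 ^ 5 ∧
    |c1 * z + c3 * y + c2 * x + c4| ≤ 6 / 10 ^ 5 := by
  have hx' := abs_le.1 hx
  have hy' := abs_le.1 hy
  have hz' := abs_le.1 hz
  norm_num at hx' hy' hz'
  obtain ⟨hx1, hx2⟩ := hx'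
  obtain ⟨hy1, hy2⟩ := hy'
  obtain ⟨hz1, hz2⟩ := hz'
  have sx : |x| ≤ 1 := by rw [abs_le]; constructor <;> linarith
  have sy : |y| ≤ 1 := by rw [abs_le]; constructor <;> linarith
  have sz : |z| ≤ 1 := by rw [abs_le]; constructor <;> linarith
  have k1x := abs_le.1 (small k1 sx)
  have k1y := abs_le.1 (small k1 sy)
  have k1z := abs_le.1 (small k1 sz)
  have k2x := abs_le.1 (small k2 sx)
  have k2y := abs_le.1 (small k2 sy)
  have k2z := abs_le.1 (small k2 sz)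
  have k3x := abs_le.1 (small k3 sx)
  have k3y := abs_le.1 (small k3 sy)
  have k3z := abs_le.1 (small k3 sz)
  have k4x := abs_le.1 (small k4 sx)
  have k4y := abs_le.1 (small k4 sy)
  have k4z := abs_le.1 (small k4 sz)
  have k1' := abs_le.1 k1
  have k2' := abs_le.1 k2
  have k3' := abs_le.1 k3
  have k4' := abs_le.1 k4
  clear hx hy hz k1 k2 k3 k4 sx sy sz
  norm_num at k1x k1y k1z k2x k2y k2z k3x k3y k3z k4x k4y k4z k1' k2' k3' k4'
  refine ⟨?_, ?_, ?_, ?_⟩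
  · linarith [k1'.1, k3x.2, k2y.2, k4z.1]
  · norm_num; rw [abs_le]; constructor
    · linarith [k1x.1, k3'.1, k2z.2, k4y.2]
    · linarith [k1x.2, k3'.2, k2z.1, k4y.1]
  · norm_num; rw [abs_le]; constructor
    · linarith [k1y.1, k3z.2, k2'.1, k4x.2]
    · linarith [k1y.2, k3z.1, k2'.2, k4x.1]
  · norm_num; rw [abs_le]; constructor
    · linarith [k1z.1, k3y.1, k2x.1, k4'.1]
    · linarith [k1z.2, k3y.2, k2x.2, k4'.2]

/-- **LEred** -/
theorem lered (h0 : PF0) : LEred := by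
  intro hLE A B p q ν c s t x y z hO hνc hN hpass
  obtain ⟨hs, ht, hx, hy, hz⟩ := hN
  rw [one_mul] at hy hz
  obtain ⟨k1, k2, k3, k4⟩ := prods hO
  obtain ⟨m1, mp1, m2, mp2⟩ := maxE h0 hs ht
  obtain ⟨b0, b1, b2, b3⟩ := rE k1 k2 k3 k4 hx hy hz
  obtain ⟨hL, hX⟩ := xiE hO.np hO.nq ht
  have hA := hO.AB
  have hp := hO.pq
  have hL0 : 0 < q * t + p := by linarith
  have hξ : |s / (q * t + p)| ≤ 2 / 10 ^ 5 := by
    rw [abs_div, abs_of_pos hL0, div_le_iff₀ hL0]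
    linarith
  have hη : |(p * t - q) / (q * t + p)| ≤ 2 / 10 ^ 5 := by
    rw [abs_div, abs_of_pos hL0, div_le_iff₀ hL0]
    linarith
  -- the quaternion
  obtain ⟨r0, e0⟩ : ∃ r0, r0 = (1 + A) * ((1 + p) - q * x) - B * ((1 + p) * y - q * z) :=
    ⟨_, rfl⟩
  obtain ⟨r1, e1⟩ : ∃ r1, r1 = (1 + A) * ((1 + p) * x + q) - B * ((1 + p) * z + q * y) :=
    ⟨_, rfl⟩
  obtain ⟨r2, e2⟩ : ∃ r2, r2 = (1 + A) * ((1 + p) * y - q * z) + B * ((1 + p) - q * x) :=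
    ⟨_, rfl⟩
  obtain ⟨r3, e3⟩ : ∃ r3, r3 = (1 + A) * ((1 + p) * z + q * y) + B * ((1 + p) * x + q) :=
    ⟨_, rfl⟩
  have f0 : (1 + p) * (1 + A) - q * (1 + A) * x - (1 + p) * B * y + q * B * z = r0 := by
    rw [e0]; ring
  have f1 : (1 + p) * (1 + A) * x + q * (1 + A) - (1 + p) * B * z - q * B * y = r1 := by
    rw [e1]; ring
  have f2 : (1 + p) * (1 + A) * y - q * (1 + A) * z + (1 + p) * B - q * B * x = r2 := by
    rw [e2]; ring
  have f3 : (1 + p) * (1 + A) * z + q * (1 + A) * y + (1 + p) * B * x + q * B = r3 := by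
    rw [e3]; ring
  rw [f0] at b0
  rw [f1] at b1
  rw [f2] at b2
  rw [f3] at b3
  have hr0 : 0 < r0 := by linarith
  have bd : ∀ r : ℝ, |r| ≤ 6 / 10 ^ 5 → |r / r0| ≤ 2 / 10 ^ 5 := by
    intro r h
    rw [abs_div, abs_of_pos hr0, div_le_iff₀ hr0]
    linarith
  have nA := (abs_le.1 hO.nA).1
  have np := (abs_le.1 hO.np).1
  have nc := (abs_le.1 hO.nc).1
  norm_num at nA np nc
  have hν : 0 < ν := by linarith
  have hpos : ∀ a0 a1 a2 d0 d1 d2 q0 q1 q2 : ℝ,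
      0 < (1 + x^2 + y^2 + z^2) *
          (a0 * (d1 - d2 * t) + a1 * (d2 * s - d0) + a2 * (d0 * t - d1 * s))
        - ν * (R0 1 x y z q0 q1 q2 * (d1 - d2 * t) + R1 1 x y z q0 q1 q2 * (d2 * s - d0)
          + R2 1 x y z q0 q1 q2 * (d0 * t - d1 * s)) →
      0 < G3 ν (s / (q * t + p)) ((p * t - q) / (q * t + p)) (r1 / r0) (r2 / r0)
      (r3 / r0) a0 (p * a1 - q * a2) (q * a1 + p * a2) d0 (p * d1 - q * d2) (q * d1 + p * d2)
      (A * q0 - B * q2) q1 (B * q0 + A * q2) := by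
    intro a0 a1 a2 d0 d1 d2 q0 q1 q2 h
    have key := G3_frameE ν A B p q s t x y z a0 a1 a2 d0 d1 d2 q0 q1 q2 hA hp r0 r1 r2 r3
      e0 e1 e2 e3 hr0.ne' hL0.ne'
    have hK : 0 < 4 * (1 + A) * (1 + p) := by
      have : 0 < 1 + A := by linarith
      have : 0 < 1 + p := by linarith
      positivity
    have h2 := mul_pos hK h
    rw [← key] at h2
    exact (pos_iff_pos_of_mul_pos h2).1 (by positivity)
  refine hLE A B p q ν hO _ _ _ _ _ hξ hη (bd _ b1) (bd _ b2) (bd _ b3) ⟨?_, ?_, ?_, ?_⟩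
  · have hm := memE2 (b := 1) (by simp)
    rw [one_mul] at hm
    have := hpos φ (φ - 1) 0 (1 - φ) (2 - φ) (-1) φ (φ - 1) 0
      (pass_strict hpass hν hνc _ _ _ _ _ _ _ _ _ hm m1 mp1)
    convert this using 1; ring_nf
  · have := hpos φ (φ - 1) 0 (1 - φ) (2 - φ) (-1) 1 1 (-1)
      (pass_strict hpass hν hνc _ _ _ _ _ _ _ _ _
        (memE1 (by simp) (by simp) (by simp)) m1 mp1)
    convert this using 1; ring_nf
  · have := hpos φ (-1 * (φ - 1)) 0 (φ - 1) (2 - φ) (-1) φ (-1 * (φ - 1)) 0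
      (pass_strict hpass hν hνc _ _ _ _ _ _ _ _ _ (memE2 (b := -1) (by simp)) m2 mp2)
    convert this using 1; ring_nf
  · have := hpos φ (-1 * (φ - 1)) 0 (φ - 1) (2 - φ) (-1) 1 (-1) (-1)
      (pass_strict hpass hν hνc _ _ _ _ _ _ _ _ _
        (memE1 (by simp) (by simp) (by simp)) m2 mp2)
    convert this using 1; ring_nf

end Pool.Agent.W2helper76.NW
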