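import Pool.Agent.W2helper76.NW.Num

/-!
# LIred: change to frame coordinates near the optimum, icosahedron
-/

set_option autoImplicit false

namespace Pool.Agent.W2helper76.NW

open Matrix
open scoped goldenRatio
open Pool.Agent.W2helper59.NW

lemma maxI (h0 : PF0) {s t : ℝ} (hs : |s - 272896858/10^9| ≤ 1/10^5) (ht : |t| ≤ 1/10^5) :
    (∀ v ∈ VI, v 0 * (φ - 1 * t) + v 1 * (1 * s - (1 - φ)) + v 2 * ((1 - φ) * t - φ * s) ≤
      φ * (φ - 1 * t) + 0 * (1 * s - (1 - φ)) + (-1) * ((1 - φ) * t - φ * s)) ∧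
    0 < φ * (φ - 1 * t) + 0 * (1 * s - (1 - φ)) + (-1) * ((1 - φ) * t - φ * s) ∧
    (∀ v ∈ VI, v 0 * (φ - (-1) * t) + v 1 * ((-1) * s - (φ - 1)) + v 2 * ((φ - 1) * t - φ * s) ≤
      φ * (φ - (-1) * t) + 0 * ((-1) * s - (φ - 1)) + (-1) * ((φ - 1) * t - φ * s)) ∧
    0 < φ * (φ - (-1) * t) + 0 * ((-1) * s - (φ - 1)) + (-1) * ((φ - 1) * t - φ * s) := by
  have hφ := phi_bd h0
  have e1 : φ * φ = φ + 1 := by have := Real.goldenRatio_sq; nlinarith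
  have e2 : φ * φ * s = φ * s + s := by rw [e1]; ring
  have e3 : φ * φ * t = φ * t + t := by rw [e1]; ring
  have hs' := abs_le.1 hs
  have ht' := abs_le.1 ht
  have s1 : |s| ≤ 1 := by
    norm_num at hs'; rw [abs_le]; constructor <;> linarith [hs'.1, hs'.2]
  have t1 : |t| ≤ 1 := by
    norm_num at ht'; rw [abs_le]; constructor <;> linarith [ht'.1, ht'.2]
  have fs := abs_le.1 (small hφ s1)
  have ft := abs_le.1 (small hφ t1)
  have hφ' := abs_le.1 hφ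
  norm_num at hs' ht' fs ft hφ'
  obtain ⟨hs1, hs2⟩ := hs'
  obtain ⟨ht1, ht2⟩ := ht'
  obtain ⟨fs1, fs2⟩ := fs
  obtain ⟨ft1, ft2⟩ := ft
  obtain ⟨p1, p2⟩ := hφ'
  clear hφ hs ht s1 t1 h0
  refine ⟨?_, ?_, ?_, ?_⟩
  · rintro v ⟨s', t', hs', ht', h⟩
    rcases hs' with rfl | rfl <;> rcases ht' with rfl | rfl <;> rcases h with rfl | rfl | rfl <;>
      simp only [cons_val_zero, cons_val_one, cons_val] <;> linarith
  · linarith
  · rintro v ⟨s', t', hs', ht', h⟩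
    rcases hs' with rfl | rfl <;> rcases ht' with rfl | rfl <;> rcases h with rfl | rfl | rfl <;>
      simp only [cons_val_zero, cons_val_one, cons_val] <;> linarith
  · linarith

lemma xiI {A B s : ℝ} (nA : |A - 9647222792876086 / 10 ^ 16| ≤ 1 / 10 ^ 14)
    (nB : |B - 2632696789342089 / 10 ^ 16| ≤ 1 / 10 ^ 14)
    (hs : |s - 272896858/10^9| ≤ 1/10^5) :
    1 < B * s + A ∧ |A * s - B| ≤ 2 / 10 ^ 5 := by
  have nA := abs_le.1 nA
  have nB := abs_le.1 nB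
  have hs' := abs_le.1 hs
  norm_num at nA nB hs'
  obtain ⟨nA1, nA2⟩ := nA
  obtain ⟨nB1, nB2⟩ := nB
  obtain ⟨hs1, hs2⟩ := hs'
  have ss : |s| ≤ 1 := by rw [abs_le]; constructor <;> linarith
  have eA : |A - 96472227929 / 10 ^ 11| ≤ 1 / 10 ^ 10 := by
    norm_num; rw [abs_le]; constructor <;> linarith
  have eB : |B - 26326967893 / 10 ^ 11| ≤ 1 / 10 ^ 10 := by
    norm_num; rw [abs_le]; constructor <;> linarith
  have As := abs_le.1 (small eA ss)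
  have Bs := abs_le.1 (small eB ss)
  norm_num at As Bs
  obtain ⟨As1, As2⟩ := As
  obtain ⟨Bs1, Bs2⟩ := Bs
  refine ⟨by linarith, ?_⟩
  norm_num; rw [abs_le]; constructor <;> linarith

lemma rI {c1 c2 c3 c4 x y z : ℝ}
    (k1 : |c1 - 3804155062544 / 10 ^ 12| ≤ 1 / 10 ^ 10)
    (k2 : |c2 - 509750763500 / 10 ^ 12| ≤ 1 / 10 ^ 10)
    (k3 : |c3 - 690377194446 / 10 ^ 12| ≤ 1 / 10 ^ 10)
    (k4 : |c4 - 92509452477 / 10 ^ 12| ≤ 1 / 10 ^ 10)
    (hx : |x - 181479772/10^9| ≤ 1/10^5) (hy : |y - 133998419/10^9| ≤ 1/10^5)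
    (hz : |z + 24318003/10^9| ≤ 1/10^5) :
    399 / 100 < c1 + c2 * y + c3 * x - c4 * z ∧
    |c1 * x - c2 * z - c3 - c4 * y| ≤ 6 / 10 ^ 5 ∧
    |c1 * y - c2 - c3 * z - c4 * x| ≤ 6 / 10 ^ 5 ∧
    |c1 * z + c2 * x + c3 * y - c4| ≤ 6 / 10 ^ 5 := by
  have hx' := abs_le.1 hx
  have hy' := abs_le.1 hy
  have hz' := abs_le.1 hz
  norm_num at hx' hy' hz'
  obtain ⟨hx1, hx2⟩ := hx'
  obtain ⟨hy1, hy2⟩ := hy'
  obtain ⟨hz1, hz2⟩ := hz'
  have sx : |x| ≤ 1 := by rw [abs_le]; constructor <;> linarith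
  have sy : |y| ≤ 1 := by rw [abs_le]; constructor <;> linarith
  have sz : |z| ≤ 1 := by rw [abs_le]; constructor <;> linarith
  have k1x := abs_le.1 (small k1 sx)
  have k1y := abs_le.1 (small k1 sy)
  have k1z := abs_le.1 (small k1 sz)
  have k2x := abs_le.1 (small k2 sx)
  have k2y := abs_le.1 (small k2 sy)
  have k2z := abs_le.1 (small k2 sz)
  have k3x := abs_le.1 (small k3 sx)
  have k3y := abs_le.1 (small k3 sy)
  have k3z := abs_le.1 (small k3 sz)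
  have k4x := abs_le.1 (small k4 sx)
  have k4y := abs_le.1 (small k4 sy)
  have k4z := abs_le.1 (small k4 sz)
  have k1' := abs_le.1 k1
  have k2' := abs_le.1 k2
  have k3' := abs_le.1 k3
  have k4' := abs_le.1 k4
  clear hx hy hz k1 k2 k3 k4 sx sy sz
  norm_num at k1x k1y k1z k2x k2y k2z k3x k3y k3z k4x k4y k4z k1' k2' k3' k4'
  refine ⟨?_, ?_, ?_, ?_⟩
  · linarith [k1'.1, k2y.1, k3x.1, k4z.2]
  · norm_num; rw [abs_le]; constructor
    · linarith [k1x.1, k2z.2, k3'.2, k4y.2]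
    · linarith [k1x.2, k2z.1, k3'.1, k4y.1]
  · norm_num; rw [abs_le]; constructor
    · linarith [k1y.1, k2'.2, k3z.2, k4x.2]
    · linarith [k1y.2, k2'.1, k3z.1, k4x.1]
  · norm_num; rw [abs_le]; constructor
    · linarith [k1z.1, k2x.1, k3y.1, k4'.2]
    · linarith [k1z.2, k2x.2, k3y.2, k4'.1]

/-- **LIred** -/
theorem lired (h0 : PF0) : LIred := by
  intro hLI A B p q ν c s t x y z hO hνc hN hpass
  obtain ⟨hs, ht, hx, hy, hz⟩ := hN
  rw [one_mul] at hx hz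
  obtain ⟨k1, k2, k3, k4⟩ := prods hO
  obtain ⟨m1, mp1, m2, mp2⟩ := maxI h0 hs ht
  obtain ⟨b0, b1, b2, b3⟩ := rI k1 k2 k3 k4 hx hy hz
  obtain ⟨hL, hX⟩ := xiI hO.nA hO.nB hs
  have hA := hO.AB
  have hp := hO.pq
  have hL0 : 0 < B * s + A := by linarith
  have hξ : |(A * s - B) / (B * s + A)| ≤ 2 / 10 ^ 5 := by
    rw [abs_div, abs_of_pos hL0, div_le_iff₀ hL0]
    linarith
  have hη : |t / (B * s + A)| ≤ 2 / 10 ^ 5 := by
    rw [abs_div, abs_of_pos hL0, div_le_iff₀ hL0]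
    linarith
  -- the quaternion
  obtain ⟨r0, e0⟩ : ∃ r0, r0 = (1 + p) * ((1 + A) + B * y) + q * ((1 + A) * x - B * z) :=
    ⟨_, rfl⟩
  obtain ⟨r1, e1⟩ : ∃ r1, r1 = (1 + p) * ((1 + A) * x - B * z) - q * ((1 + A) + B * y) :=
    ⟨_, rfl⟩
  obtain ⟨r2, e2⟩ : ∃ r2, r2 = (1 + p) * ((1 + A) * y - B) - q * ((1 + A) * z + B * x) :=
    ⟨_, rfl⟩
  obtain ⟨r3, e3⟩ : ∃ r3, r3 = (1 + p) * ((1 + A) * z + B * x) + q * ((1 + A) * y - B) :=
    ⟨_, rfl⟩
  have f0 : (1 + p) * (1 + A) + (1 + p) * B * y + q * (1 + A) * x - q * B * z = r0 := by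
    rw [e0]; ring
  have f1 : (1 + p) * (1 + A) * x - (1 + p) * B * z - q * (1 + A) - q * B * y = r1 := by
    rw [e1]; ring
  have f2 : (1 + p) * (1 + A) * y - (1 + p) * B - q * (1 + A) * z - q * B * x = r2 := by
    rw [e2]; ring
  have f3 : (1 + p) * (1 + A) * z + (1 + p) * B * x + q * (1 + A) * y - q * B = r3 := by
    rw [e3]; ring
  rw [f0] at b0
  rw [f1] at b1
  rw [f2] at b2
  rw [f3] at b3
  have hr0 : 0 < r0 := by linarith
  have bd : ∀ r : ℝ, |r| ≤ 6 / 10 ^ 5 → |r / r0| ≤ 2 / 10 ^ 5 := by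
    intro r h
    rw [abs_div, abs_of_pos hr0, div_le_iff₀ hr0]
    linarith
  have nA := (abs_le.1 hO.nA).1
  have np := (abs_le.1 hO.np).1
  have nc := (abs_le.1 hO.nc).1
  norm_num at nA np nc
  have hν : 0 < ν := by linarith
  have hpos : ∀ a0 a1 a2 d0 d1 d2 q0 q1 q2 : ℝ,
      0 < (1 + x^2 + y^2 + z^2) *
          (a0 * (d1 - d2 * t) + a1 * (d2 * s - d0) + a2 * (d0 * t - d1 * s))
        - ν * (R0 1 x y z q0 q1 q2 * (d1 - d2 * t) + R1 1 x y z q0 q1 q2 * (d2 * s - d0)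
          + R2 1 x y z q0 q1 q2 * (d0 * t - d1 * s)) →
      0 < G3 ν ((A * s - B) / (B * s + A)) (t / (B * s + A)) (r1 / r0) (r2 / r0)
      (r3 / r0) (A * a0 - B * a2) a1 (B * a0 + A * a2) (A * d0 - B * d2) d1 (B * d0 + A * d2)
      q0 (p * q1 - q * q2) (q * q1 + p * q2) := by
    intro a0 a1 a2 d0 d1 d2 q0 q1 q2 h
    have key := G3_frameI ν A B p q s t x y z a0 a1 a2 d0 d1 d2 q0 q1 q2 hA hp r0 r1 r2 r3
      e0 e1 e2 e3 hr0.ne' hL0.ne'
    have hK : 0 < 4 * (1 + A) * (1 + p) := by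
      have : 0 < 1 + A := by linarith
      have : 0 < 1 + p := by linarith
      positivity
    have h2 := mul_pos hK h
    rw [← key] at h2
    exact (pos_iff_pos_of_mul_pos h2).1 (by positivity)
  refine hLI A B p q ν hO _ _ _ _ _ hξ hη (bd _ b1) (bd _ b2) (bd _ b3) ⟨?_, ?_, ?_, ?_⟩
  · have := hpos φ 0 (-1) (1 - φ) φ 1 φ 0 (-1)
      (pass_strict hpass hν hνc _ _ _ _ _ _ _ _ _ ⟨-1, 1, by simp, by simp, by simp⟩ m1 mp1)
    convert this using 1; ring_nf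
  · have := hpos φ 0 (-1) (1 - φ) φ 1 1 φ 0
      (pass_strict hpass hν hνc _ _ _ _ _ _ _ _ _ ⟨1, 1, by simp, by simp, by simp⟩ m1 mp1)
    convert this using 1; ring_nf
  · have := hpos φ 0 (-1) (φ - 1) φ (-1) φ 0 1
      (pass_strict hpass hν hνc _ _ _ _ _ _ _ _ _ ⟨1, 1, by simp, by simp, by simp⟩ m2 mp2)
    convert this using 1; ring_nf
  · have := hpos φ 0 (-1) (φ - 1) φ (-1) 1 (-φ) 0
      (pass_strict hpass hν hνc _ _ _ _ _ _ _ _ _ ⟨1, -1, by simp, by simp, by simp⟩ m2 mp2)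
    convert this using 1; ring_nf

end Pool.Agent.W2helper76.NW
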