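import Pool.Agent.W2helper59.NW.Stm

/-!
# Common algebra of the changes to frame coordinates (LIred, LEred)
-/

set_option autoImplicit false

namespace Pool.Agent.W2helper76.NW

open Matrix
open scoped goldenRatio
open Pool.Agent.W2helper59.NW

/-- rows of the (unnormalised) rotation of a quaternion -/
def R0 (w x y z a b c : ℝ) : ℝ :=
  (w^2 + x^2 - y^2 - z^2) * a + 2 * (x * y - w * z) * b + 2 * (x * z + w * y) * c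
def R1 (w x y z a b c : ℝ) : ℝ :=
  2 * (x * y + w * z) * a + (w^2 - x^2 + y^2 - z^2) * b + 2 * (y * z - w * x) * c
def R2 (w x y z a b c : ℝ) : ℝ :=
  2 * (x * z - w * y) * a + 2 * (y * z + w * x) * b + (w^2 - x^2 - y^2 + z^2) * c

lemma G3_eq (c ξ η α β γ P1 P2 P3 D1 D2 D3 Q1 Q2 Q3 : ℝ) :
    G3 c ξ η α β γ P1 P2 P3 D1 D2 D3 Q1 Q2 Q3 =
      ξ * (((1 + α^2 + β^2 + γ^2) * P2 - c * R1 1 α β γ Q1 Q2 Q3) * D3
          - ((1 + α^2 + β^2 + γ^2) * P3 - c * R2 1 α β γ Q1 Q2 Q3) * D2)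
      + η * (((1 + α^2 + β^2 + γ^2) * P3 - c * R2 1 α β γ Q1 Q2 Q3) * D1
          - ((1 + α^2 + β^2 + γ^2) * P1 - c * R0 1 α β γ Q1 Q2 Q3) * D3)
      + (((1 + α^2 + β^2 + γ^2) * P1 - c * R0 1 α β γ Q1 Q2 Q3) * D2
          - ((1 + α^2 + β^2 + γ^2) * P2 - c * R1 1 α β γ Q1 Q2 Q3) * D1) := by
  simp only [G3, R0, R1, R2]; ring

/-- a strict version of `PassQ` at an edge direction -/
lemma pass_strict {V : Set (Fin 3 → ℝ)} {c ν s t x y z : ℝ} (h : PassQ V c s t x y z)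
    (hν : 0 < ν) (hc : ν < c) (a0 a1 a2 d0 d1 d2 q0 q1 q2 : ℝ)
    (hq : ![q0, q1, q2] ∈ V)
    (hmax : ∀ v ∈ V, v 0 * (d1 - d2 * t) + v 1 * (d2 * s - d0) + v 2 * (d0 * t - d1 * s) ≤
      a0 * (d1 - d2 * t) + a1 * (d2 * s - d0) + a2 * (d0 * t - d1 * s))
    (hpos : 0 < a0 * (d1 - d2 * t) + a1 * (d2 * s - d0) + a2 * (d0 * t - d1 * s)) :
    0 < (1 + x^2 + y^2 + z^2) *
          (a0 * (d1 - d2 * t) + a1 * (d2 * s - d0) + a2 * (d0 * t - d1 * s))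
        - ν * (R0 1 x y z q0 q1 q2 * (d1 - d2 * t) + R1 1 x y z q0 q1 q2 * (d2 * s - d0)
          + R2 1 x y z q0 q1 q2 * (d0 * t - d1 * s)) := by
  have hn : 0 < 1 + x^2 + y^2 + z^2 := by positivity
  obtain ⟨v, hv, hle⟩ := h ![d1 - d2 * t, d2 * s - d0, d0 * t - d1 * s] (by
    simp [Matrix.cons_val_zero, Matrix.cons_val_one]; ring) _ hq
  have hm := hmax v hv
  have e1 : v ⬝ᵥ ![d1 - d2 * t, d2 * s - d0, d0 * t - d1 * s] =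
      v 0 * (d1 - d2 * t) + v 1 * (d2 * s - d0) + v 2 * (d0 * t - d1 * s) := by
    simp [dotProduct, Fin.sum_univ_three]
  have e2 : RQ x y z ![q0, q1, q2] ⬝ᵥ ![d1 - d2 * t, d2 * s - d0, d0 * t - d1 * s] =
      R0 1 x y z q0 q1 q2 * (d1 - d2 * t) + R1 1 x y z q0 q1 q2 * (d2 * s - d0)
          + R2 1 x y z q0 q1 q2 * (d0 * t - d1 * s) := by
    simp [dotProduct, Fin.sum_univ_three, RQ, R0, R1, R2]
  rw [e1, e2] at hle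
  set X := R0 1 x y z q0 q1 q2 * (d1 - d2 * t) + R1 1 x y z q0 q1 q2 * (d2 * s - d0)
          + R2 1 x y z q0 q1 q2 * (d0 * t - d1 * s)
  set Y := a0 * (d1 - d2 * t) + a1 * (d2 * s - d0) + a2 * (d0 * t - d1 * s)
  have h1 : c * X ≤ (1 + x^2 + y^2 + z^2) * Y :=
    hle.trans (mul_le_mul_of_nonneg_left hm hn.le)
  rcases le_or_gt X 0 with hX | hX
  · have := mul_pos hn hpos
    nlinarith
  · have : ν * X < c * X := mul_lt_mul_of_pos_right hc hX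
    linarith

lemma R0_hom (r0 r1 r2 r3 a b c : ℝ) (hr : r0 ≠ 0) :
    r0 ^ 2 * R0 1 (r1 / r0) (r2 / r0) (r3 / r0) a b c = R0 r0 r1 r2 r3 a b c := by
  simp only [R0]; field_simp

lemma R1_hom (r0 r1 r2 r3 a b c : ℝ) (hr : r0 ≠ 0) :
    r0 ^ 2 * R1 1 (r1 / r0) (r2 / r0) (r3 / r0) a b c = R1 r0 r1 r2 r3 a b c := by
  simp only [R1]; field_simp

lemma R2_hom (r0 r1 r2 r3 a b c : ℝ) (hr : r0 ≠ 0) :
    r0 ^ 2 * R2 1 (r1 / r0) (r2 / r0) (r3 / r0) a b c = R2 r0 r1 r2 r3 a b c := by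
  simp only [R2]; field_simp

lemma n_hom (r0 r1 r2 r3 : ℝ) (hr : r0 ≠ 0) :
    r0 ^ 2 * (1 + (r1 / r0) ^ 2 + (r2 / r0) ^ 2 + (r3 / r0) ^ 2) =
      r0 ^ 2 + r1 ^ 2 + r2 ^ 2 + r3 ^ 2 := by
  field_simp

/-- assembling -/
lemma G3_hom (c L X T r0 r1 r2 r3 P1 P2 P3 D1 D2 D3 Q1 Q2 Q3 : ℝ) (hr : r0 ≠ 0) (hL : L ≠ 0) :
    L * r0 ^ 2 * G3 c (X / L) (T / L) (r1 / r0) (r2 / r0) (r3 / r0) P1 P2 P3 D1 D2 D3 Q1 Q2 Q3 =
      X * (((r0 ^ 2 + r1 ^ 2 + r2 ^ 2 + r3 ^ 2) * P2 - c * R1 r0 r1 r2 r3 Q1 Q2 Q3) * D3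
          - ((r0 ^ 2 + r1 ^ 2 + r2 ^ 2 + r3 ^ 2) * P3 - c * R2 r0 r1 r2 r3 Q1 Q2 Q3) * D2)
      + T * (((r0 ^ 2 + r1 ^ 2 + r2 ^ 2 + r3 ^ 2) * P3 - c * R2 r0 r1 r2 r3 Q1 Q2 Q3) * D1
          - ((r0 ^ 2 + r1 ^ 2 + r2 ^ 2 + r3 ^ 2) * P1 - c * R0 r0 r1 r2 r3 Q1 Q2 Q3) * D3)
      + L * (((r0 ^ 2 + r1 ^ 2 + r2 ^ 2 + r3 ^ 2) * P1 - c * R0 r0 r1 r2 r3 Q1 Q2 Q3) * D2
          - ((r0 ^ 2 + r1 ^ 2 + r2 ^ 2 + r3 ^ 2) * P2 - c * R1 r0 r1 r2 r3 Q1 Q2 Q3) * D1) := by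
  rw [G3_eq, ← R0_hom r0 r1 r2 r3 _ _ _ hr, ← R1_hom r0 r1 r2 r3 _ _ _ hr,
    ← R2_hom r0 r1 r2 r3 _ _ _ hr, ← n_hom r0 r1 r2 r3 hr]
  have hX : L * (X / L) = X := by field_simp
  have hT : L * (T / L) = T := by field_simp
  generalize X / L = ξ at *
  generalize T / L = η at *
  rw [← hX, ← hT]
  ring

/-- change of frame, icosahedron -/
lemma G3_frameI (ν A B p q s t x y z a0 a1 a2 d0 d1 d2 q0 q1 q2 : ℝ)
    (hA : A ^ 2 + B ^ 2 = 1) (hp : p ^ 2 + q ^ 2 = 1)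
    (r0 r1 r2 r3 : ℝ)
    (h0 : r0 = (1 + p) * ((1 + A) + B * y) + q * ((1 + A) * x - B * z))
    (h1 : r1 = (1 + p) * ((1 + A) * x - B * z) - q * ((1 + A) + B * y))
    (h2 : r2 = (1 + p) * ((1 + A) * y - B) - q * ((1 + A) * z + B * x))
    (h3 : r3 = (1 + p) * ((1 + A) * z + B * x) + q * ((1 + A) * y - B))
    (hr : r0 ≠ 0) (hL : B * s + A ≠ 0) :
    (B * s + A) * r0 ^ 2 * G3 ν ((A * s - B) / (B * s + A)) (t / (B * s + A)) (r1 / r0) (r2 / r0)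
      (r3 / r0) (A * a0 - B * a2) a1 (B * a0 + A * a2) (A * d0 - B * d2) d1 (B * d0 + A * d2)
      q0 (p * q1 - q * q2) (q * q1 + p * q2) =
    (4 * (1 + A) * (1 + p)) * ((1 + x^2 + y^2 + z^2) *
          (a0 * (d1 - d2 * t) + a1 * (d2 * s - d0) + a2 * (d0 * t - d1 * s))
        - ν * (R0 1 x y z q0 q1 q2 * (d1 - d2 * t) + R1 1 x y z q0 q1 q2 * (d2 * s - d0)
          + R2 1 x y z q0 q1 q2 * (d0 * t - d1 * s))) := by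
  rw [G3_hom _ _ _ _ _ _ _ _ _ _ _ _ _ _ _ _ _ hr hL]
  obtain ⟨m0, hm0⟩ : ∃ m0, m0 = (1 + A) + B * y := ⟨_, rfl⟩
  obtain ⟨m1, hm1⟩ : ∃ m1, m1 = (1 + A) * x - B * z := ⟨_, rfl⟩
  obtain ⟨m2, hm2⟩ : ∃ m2, m2 = (1 + A) * y - B := ⟨_, rfl⟩
  obtain ⟨m3, hm3⟩ : ∃ m3, m3 = (1 + A) * z + B * x := ⟨_, rfl⟩
  rw [← hm0, ← hm1] at h0 h1
  rw [← hm2, ← hm3] at h2 h3
  -- left multiplication
  have l0 : R0 m0 m1 m2 m3 q0 q1 q2 =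
      2 * (1 + A) * (A * R0 1 x y z q0 q1 q2 - B * R2 1 x y z q0 q1 q2) := by
    simp only [R0, R2, hm0, hm1, hm2, hm3]
    linear_combination (-(((1:ℝ)^2 + x^2 - y^2 - z^2) * q0 + 2 * (x * y - (1:ℝ) * z) * q1 + 2 * (x * z + (1:ℝ) * y) * q2)) * hA
  have l1 : R1 m0 m1 m2 m3 q0 q1 q2 = 2 * (1 + A) * R1 1 x y z q0 q1 q2 := by
    simp only [R1, hm0, hm1, hm2, hm3]
    linear_combination (2 * (x * y + (1:ℝ) * z) * q0 + ((1:ℝ)^2 - x^2 + y^2 - z^2) * q1 + 2 * (y * z - (1:ℝ) * x) * q2) * hA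
  have l2 : R2 m0 m1 m2 m3 q0 q1 q2 =
      2 * (1 + A) * (B * R0 1 x y z q0 q1 q2 + A * R2 1 x y z q0 q1 q2) := by
    simp only [R0, R2, hm0, hm1, hm2, hm3]
    linear_combination (-(2 * (x * z - (1:ℝ) * y) * q0 + 2 * (y * z + (1:ℝ) * x) * q1 + ((1:ℝ)^2 - x^2 - y^2 + z^2) * q2)) * hA
  have ln : m0 ^ 2 + m1 ^ 2 + m2 ^ 2 + m3 ^ 2 = 2 * (1 + A) * (1 + x^2 + y^2 + z^2) := by
    simp only [hm0, hm1, hm2, hm3]
    linear_combination (1 + x^2 + y^2 + z^2) * hA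
  -- right multiplication
  have k0 : R0 r0 r1 r2 r3 q0 (p * q1 - q * q2) (q * q1 + p * q2) =
      2 * (1 + p) * R0 m0 m1 m2 m3 q0 q1 q2 := by
    simp only [R0, h0, h1, h2, h3]
    linear_combination ((m0^2 + m1^2 - m2^2 - m3^2) * q0 + 2 * (m1 * m2 - m0 * m3) * ((p + 2) * q1 + q * q2) + 2 * (m1 * m3 + m0 * m2) * ((p + 2) * q2 - q * q1)) * hp
  have k1 : R1 r0 r1 r2 r3 q0 (p * q1 - q * q2) (q * q1 + p * q2) =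
      2 * (1 + p) * R1 m0 m1 m2 m3 q0 q1 q2 := by
    simp only [R1, h0, h1, h2, h3]
    linear_combination (2 * (m1 * m2 + m0 * m3) * q0 + (m0^2 - m1^2 + m2^2 - m3^2) * ((p + 2) * q1 + q * q2) + 2 * (m2 * m3 - m0 * m1) * ((p + 2) * q2 - q * q1)) * hp
  have k2 : R2 r0 r1 r2 r3 q0 (p * q1 - q * q2) (q * q1 + p * q2) =
      2 * (1 + p) * R2 m0 m1 m2 m3 q0 q1 q2 := by
    simp only [R2, h0, h1, h2, h3]
    linear_combination (2 * (m1 * m3 - m0 * m2) * q0 + 2 * (m2 * m3 + m0 * m1) * ((p + 2) * q1 + q * q2) + (m0^2 - m1^2 - m2^2 + m3^2) * ((p + 2) * q2 - q * q1)) * hp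
  have kn : r0 ^ 2 + r1 ^ 2 + r2 ^ 2 + r3 ^ 2 =
      2 * (1 + p) * (m0 ^ 2 + m1 ^ 2 + m2 ^ 2 + m3 ^ 2) := by
    simp only [h0, h1, h2, h3]
    linear_combination (m0 ^ 2 + m1 ^ 2 + m2 ^ 2 + m3 ^ 2) * hp
  rw [k0, k1, k2, kn, l0, l1, l2, ln]
  generalize R0 1 x y z q0 q1 q2 = X0
  generalize R1 1 x y z q0 q1 q2 = X1
  generalize R2 1 x y z q0 q1 q2 = X2
  generalize 1 + x ^ 2 + y ^ 2 + z ^ 2 = n
  linear_combination (4 * (1 + A) * (1 + p)) * (s * ((n * a1 - ν * X1) * d2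
    - (n * a2 - ν * X2) * d1) + t * ((n * a2 - ν * X2) * d0 - (n * a0 - ν * X0) * d2)
    + ((n * a0 - ν * X0) * d1 - (n * a1 - ν * X1) * d0)) * hA

/-- change of frame, dodecahedron -/
lemma G3_frameE (ν A B p q s t x y z a0 a1 a2 d0 d1 d2 q0 q1 q2 : ℝ)
    (hA : A ^ 2 + B ^ 2 = 1) (hp : p ^ 2 + q ^ 2 = 1)
    (r0 r1 r2 r3 : ℝ)
    (h0 : r0 = (1 + A) * ((1 + p) - q * x) - B * ((1 + p) * y - q * z))
    (h1 : r1 = (1 + A) * ((1 + p) * x + q) - B * ((1 + p) * z + q * y))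
    (h2 : r2 = (1 + A) * ((1 + p) * y - q * z) + B * ((1 + p) - q * x))
    (h3 : r3 = (1 + A) * ((1 + p) * z + q * y) + B * ((1 + p) * x + q))
    (hr : r0 ≠ 0) (hL : q * t + p ≠ 0) :
    (q * t + p) * r0 ^ 2 * G3 ν (s / (q * t + p)) ((p * t - q) / (q * t + p)) (r1 / r0) (r2 / r0)
      (r3 / r0) a0 (p * a1 - q * a2) (q * a1 + p * a2) d0 (p * d1 - q * d2) (q * d1 + p * d2)
      (A * q0 - B * q2) q1 (B * q0 + A * q2) =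
    (4 * (1 + A) * (1 + p)) * ((1 + x^2 + y^2 + z^2) *
          (a0 * (d1 - d2 * t) + a1 * (d2 * s - d0) + a2 * (d0 * t - d1 * s))
        - ν * (R0 1 x y z q0 q1 q2 * (d1 - d2 * t) + R1 1 x y z q0 q1 q2 * (d2 * s - d0)
          + R2 1 x y z q0 q1 q2 * (d0 * t - d1 * s))) := by
  rw [G3_hom _ _ _ _ _ _ _ _ _ _ _ _ _ _ _ _ _ hr hL]
  obtain ⟨m0, hm0⟩ : ∃ m0, m0 = (1 + p) - q * x := ⟨_, rfl⟩
  obtain ⟨m1, hm1⟩ : ∃ m1, m1 = (1 + p) * x + q := ⟨_, rfl⟩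
  obtain ⟨m2, hm2⟩ : ∃ m2, m2 = (1 + p) * y - q * z := ⟨_, rfl⟩
  obtain ⟨m3, hm3⟩ : ∃ m3, m3 = (1 + p) * z + q * y := ⟨_, rfl⟩
  rw [← hm0, ← hm2] at h0 h2
  rw [← hm1, ← hm3] at h1 h3
  -- left multiplication
  have l0 : R0 m0 m1 m2 m3 q0 q1 q2 = 2 * (1 + p) * R0 1 x y z q0 q1 q2 := by
    simp only [R0, hm0, hm1, hm2, hm3]
    linear_combination (((1:ℝ)^2 + x^2 - y^2 - z^2) * q0 + 2 * (x * y - (1:ℝ) * z) * q1 + 2 * (x * z + (1:ℝ) * y) * q2) * hp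
  have l1 : R1 m0 m1 m2 m3 q0 q1 q2 =
      2 * (1 + p) * (p * R1 1 x y z q0 q1 q2 - q * R2 1 x y z q0 q1 q2) := by
    simp only [R1, R2, hm0, hm1, hm2, hm3]
    linear_combination (-(2 * (x * y + (1:ℝ) * z) * q0 + ((1:ℝ)^2 - x^2 + y^2 - z^2) * q1 + 2 * (y * z - (1:ℝ) * x) * q2)) * hp
  have l2 : R2 m0 m1 m2 m3 q0 q1 q2 =
      2 * (1 + p) * (q * R1 1 x y z q0 q1 q2 + p * R2 1 x y z q0 q1 q2) := by
    simp only [R1, R2, hm0, hm1, hm2, hm3]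
    linear_combination (-(2 * (x * z - (1:ℝ) * y) * q0 + 2 * (y * z + (1:ℝ) * x) * q1 + ((1:ℝ)^2 - x^2 - y^2 + z^2) * q2)) * hp
  have ln : m0 ^ 2 + m1 ^ 2 + m2 ^ 2 + m3 ^ 2 = 2 * (1 + p) * (1 + x^2 + y^2 + z^2) := by
    simp only [hm0, hm1, hm2, hm3]
    linear_combination (1 + x^2 + y^2 + z^2) * hp
  -- right multiplication
  have k0 : R0 r0 r1 r2 r3 (A * q0 - B * q2) q1 (B * q0 + A * q2) =
      2 * (1 + A) * R0 m0 m1 m2 m3 q0 q1 q2 := by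
    simp only [R0, h0, h1, h2, h3]
    linear_combination ((m0^2 + m1^2 - m2^2 - m3^2) * ((A + 2) * q0 + B * q2) + 2 * (m1 * m2 - m0 * m3) * q1 + 2 * (m1 * m3 + m0 * m2) * ((A + 2) * q2 - B * q0)) * hA
  have k1 : R1 r0 r1 r2 r3 (A * q0 - B * q2) q1 (B * q0 + A * q2) =
      2 * (1 + A) * R1 m0 m1 m2 m3 q0 q1 q2 := by
    simp only [R1, h0, h1, h2, h3]
    linear_combination (2 * (m1 * m2 + m0 * m3) * ((A + 2) * q0 + B * q2) + (m0^2 - m1^2 + m2^2 - m3^2) * q1 + 2 * (m2 * m3 - m0 * m1) * ((A + 2) * q2 - B * q0)) * hA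
  have k2 : R2 r0 r1 r2 r3 (A * q0 - B * q2) q1 (B * q0 + A * q2) =
      2 * (1 + A) * R2 m0 m1 m2 m3 q0 q1 q2 := by
    simp only [R2, h0, h1, h2, h3]
    linear_combination (2 * (m1 * m3 - m0 * m2) * ((A + 2) * q0 + B * q2) + 2 * (m2 * m3 + m0 * m1) * q1 + (m0^2 - m1^2 - m2^2 + m3^2) * ((A + 2) * q2 - B * q0)) * hA
  have kn : r0 ^ 2 + r1 ^ 2 + r2 ^ 2 + r3 ^ 2 =
      2 * (1 + A) * (m0 ^ 2 + m1 ^ 2 + m2 ^ 2 + m3 ^ 2) := by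
    simp only [h0, h1, h2, h3]
    linear_combination (m0 ^ 2 + m1 ^ 2 + m2 ^ 2 + m3 ^ 2) * hA
  rw [k0, k1, k2, kn, l0, l1, l2, ln]
  generalize R0 1 x y z q0 q1 q2 = X0
  generalize R1 1 x y z q0 q1 q2 = X1
  generalize R2 1 x y z q0 q1 q2 = X2
  generalize 1 + x ^ 2 + y ^ 2 + z ^ 2 = n
  linear_combination (4 * (1 + A) * (1 + p)) * (s * ((n * a1 - ν * X1) * d2
    - (n * a2 - ν * X2) * d1) + t * ((n * a2 - ν * X2) * d0 - (n * a0 - ν * X0) * d2)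
    + ((n * a0 - ν * X0) * d1 - (n * a1 - ν * X1) * d0)) * hp

end Pool.Agent.W2helper76.NW
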