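import Pool.Agent.W2helper76.NW.Alg

/-!
# Numerical helpers for LIred, LEred
-/

set_option autoImplicit false

namespace Pool.Agent.W2helper76.NW

open Matrix
open scoped goldenRatio
open Pool.Agent.W2helper59.NW

lemma small {d x ε : ℝ} (hd : |d| ≤ ε) (hx : |x| ≤ 1) : |d * x| ≤ ε := by
  rw [abs_mul]
  calc |d| * |x| ≤ |d| * 1 := mul_le_mul_of_nonneg_left hx (abs_nonneg d)
    _ = |d| := mul_one _
    _ ≤ ε := hd

/-- product of two approximated numbers of size at most `2` -/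
lemma prod_approx {a b a0 b0 c0 : ℝ} (ha : |a - a0| ≤ 1 / 10 ^ 13) (hb : |b - b0| ≤ 1 / 10 ^ 13)
    (ha0 : |a0| ≤ 2) (hb0 : |b| ≤ 2) (hc : |a0 * b0 - c0| ≤ 1 / 10 ^ 11) :
    |a * b - c0| ≤ 1 / 10 ^ 10 := by
  have e : a * b - c0 = (a - a0) * b + a0 * (b - b0) + (a0 * b0 - c0) := by ring
  rw [e]
  have h1 : |(a - a0) * b| ≤ 1 / 10 ^ 13 * 2 := by
    rw [abs_mul]; exact mul_le_mul ha hb0 (abs_nonneg _) (by norm_num)
  have h2 : |a0 * (b - b0)| ≤ 2 * (1 / 10 ^ 13) := by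
    rw [abs_mul]; exact mul_le_mul ha0 hb (abs_nonneg _) (by norm_num)
  have h3 := abs_add_le ((a - a0) * b + a0 * (b - b0)) (a0 * b0 - c0)
  have h4 := abs_add_le ((a - a0) * b) (a0 * (b - b0))
  linarith

/-- numerical values of the four products -/
lemma prods {A B p q ν : ℝ} (hO : Opt A B p q ν) :
    |(1 + p) * (1 + A) - 3804155062544 / 10 ^ 12| ≤ 1 / 10 ^ 10 ∧
    |(1 + p) * B - 509750763500 / 10 ^ 12| ≤ 1 / 10 ^ 10 ∧
    |q * (1 + A) - 690377194446 / 10 ^ 12| ≤ 1 / 10 ^ 10 ∧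
    |q * B - 92509452477 / 10 ^ 12| ≤ 1 / 10 ^ 10 := by
  have hA := abs_le.1 hO.nA
  have hB := abs_le.1 hO.nB
  have hp := abs_le.1 hO.np
  have hq := abs_le.1 hO.nq
  norm_num at hA hB hp hq
  obtain ⟨hA1, hA2⟩ := hA
  obtain ⟨hB1, hB2⟩ := hB
  obtain ⟨hp1, hp2⟩ := hp
  obtain ⟨hq1, hq2⟩ := hq
  have kA : |1 + A - 19647222792876086 / 10 ^ 16| ≤ 1 / 10 ^ 13 := by
    norm_num; rw [abs_le]; constructor <;> linarith
  have kB : |B - 2632696789342089 / 10 ^ 16| ≤ 1 / 10 ^ 13 := by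
    norm_num; rw [abs_le]; constructor <;> linarith
  have kp : |1 + p - 19362304294341269 / 10 ^ 16| ≤ 1 / 10 ^ 13 := by
    norm_num; rw [abs_le]; constructor <;> linarith
  have kq : |q - 3513866574040487 / 10 ^ 16| ≤ 1 / 10 ^ 13 := by
    norm_num; rw [abs_le]; constructor <;> linarith
  have sA : |1 + A| ≤ 2 := by rw [abs_le]; constructor <;> linarith
  have sB : |B| ≤ 2 := by rw [abs_le]; constructor <;> linarith
  refine ⟨prod_approx kp kA ?_ sA ?_, prod_approx kp kB ?_ sB ?_, prod_approx kq kA ?_ sA ?_,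
    prod_approx kq kB ?_ sB ?_⟩ <;> norm_num [abs_le]

/-- golden ratio, eight digits -/
lemma phi_bd (h0 : PF0) : |φ - 161803398875 / 10 ^ 11| ≤ 1 / 10 ^ 10 := by
  have h := abs_le.1 (show |φ - 16180339887498949 / 10 ^ 16| ≤ 1 / 10 ^ 15 from h0)
  norm_num at h ⊢
  rw [abs_le]; constructor <;> linarith [h.1, h.2]

end Pool.Agent.W2helper76.NW
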